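import Pool.Agent.Q55.FC.Stm

/-! Job FC-CHA of project FC (helper55): unions of chains. -/

universe u

namespace Pool.Agent.Q225.FC

open MulOpposite Pool.Agent.Q55.FC

section
variable {S : Type u} [Monoid S] {B Y : Type u} [MulAction Sᵐᵒᵖ B] [MulAction S Y]

theorem te_mono {P P' : Set B} {Q : Set Y} (h : P ⊆ P') {p q : B × Y} (hpq : TE S P Q p q) :
    TE S P' Q p q := by
  induction hpq with
  | rel p q h0 =>
    obtain ⟨a, ha, s, y, hy, h1, h2⟩ := h0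
    exact Relation.EqvGen.rel _ _ ⟨a, h ha, s, y, hy, h1, h2⟩
  | refl p => exact Relation.EqvGen.refl _
  | symm p q _ ih => exact Relation.EqvGen.symm _ _ ih
  | trans p q r _ _ ih1 ih2 => exact Relation.EqvGen.trans _ _ _ ih1 ih2

theorem te_chain {c : Set (Set B)} (hc : IsChain (· ⊆ ·) c) {Q : Set Y} {p q : B × Y}
    (h : TE S (⋃₀ c) Q p q) : ∀ P₀ ∈ c, ∃ P ∈ c, P₀ ⊆ P ∧ TE S P Q p q := by
  induction h with
  | rel p q h =>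
    obtain ⟨a, ⟨P1, hP1, ha⟩, s, y, hy, h1, h2⟩ := h
    intro P₀ hP₀
    rcases hc.total hP₀ hP1 with h | h
    · exact ⟨P1, hP1, h, Relation.EqvGen.rel _ _ ⟨a, ha, s, y, hy, h1, h2⟩⟩
    · exact ⟨P₀, hP₀, subset_rfl, Relation.EqvGen.rel _ _ ⟨a, h ha, s, y, hy, h1, h2⟩⟩
  | refl p => exact fun P₀ hP₀ => ⟨P₀, hP₀, subset_rfl, Relation.EqvGen.refl _⟩
  | symm p q _ ih =>
    intro P₀ hP₀
    obtain ⟨P, hP, h1, h2⟩ := ih P₀ hP₀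
    exact ⟨P, hP, h1, Relation.EqvGen.symm _ _ h2⟩
  | trans p q r _ _ ih1 ih2 =>
    intro P₀ hP₀
    obtain ⟨P1, hP1, h1, h2⟩ := ih1 P₀ hP₀
    obtain ⟨P2, hP2, h3, h4⟩ := ih2 P1 hP1
    exact ⟨P2, hP2, h1.trans h3, Relation.EqvGen.trans _ _ _ (te_mono h3 h2) h4⟩

end

theorem cha : S_Cha.{u} := by
  intro S _ B _ c hne hc hsub
  refine ⟨fun h => ⟨?_, ?_, ?_⟩, fun h => ⟨?_, ?_, ?_⟩⟩
  · rintro Y _ a ⟨P1, hP1, ha⟩ a' ⟨P2, hP2, ha'⟩ y y' ht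
    rcases hc.total hP1 hP2 with h1 | h1
    · exact te_mono (Set.subset_sUnion_of_mem hP2) ((h P2 hP2).inj Y a (h1 ha) a' ha' y y' ht)
    · exact te_mono (Set.subset_sUnion_of_mem hP1) ((h P1 hP1).inj Y a ha a' (h1 ha') y y' ht)
  · rintro Y _ X hX b hb x hx a ⟨P, hP, ha⟩ y ht
    obtain ⟨a', ha', x', hx', h1⟩ := (h P hP).stab Y X hX b hb x hx a ha y ht
    exact ⟨a', ⟨P, hP, ha'⟩, x', hx', h1⟩
  · intro Y _ X hX b hb b' hb' x hx x' hx' ht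
    obtain ⟨P, hP⟩ := hne
    rcases (h P hP).rel Y X hX b hb b' hb' x hx x' hx' ht with h1 | ⟨a, ha, x₁, hx₁, h1⟩
    · exact Or.inl h1
    · exact Or.inr ⟨a, ⟨P, hP, ha⟩, x₁, hx₁, h1⟩
  · intro Y _ a ha
    exact absurd ha (Set.notMem_empty a)
  · intro Y _ X hX b hb x hx a ha
    exact absurd ha (Set.notMem_empty a)
  · rintro Y _ X hX b ⟨P1, hP1, hb⟩ b' ⟨P2, hP2, hb'⟩ x hx x' hx' ht
    obtain ⟨P₀, hP₀, g1, g2⟩ : ∃ P₀ ∈ c, b ∈ P₀ ∧ b' ∈ P₀ := by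
      rcases hc.total hP1 hP2 with h1 | h1
      · exact ⟨P2, hP2, h1 hb, hb'⟩
      · exact ⟨P1, hP1, hb, h1 hb'⟩
    obtain ⟨P, hP, h1, h2⟩ := te_chain hc ht P₀ hP₀
    rcases (h P hP).rel Y X hX b (h1 g1) b' (h1 g2) x hx x' hx' h2 with h3 | ⟨a, ha, -⟩
    · exact Or.inl (te_mono (Set.subset_sUnion_of_mem hP) h3)
    · exact absurd ha (Set.notMem_empty a)

end Pool.Agent.Q225.FC
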